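import Pool.Agent.W734.STS.Stms

/-! STS-MAIN (MP_084e97_mp). -/

set_option autoImplicit false

namespace Pool.Agent.W465.STS

open Pool.Agent.W734.STS MeasureTheory Filter

lemma G_nonneg (u : List (Fin 2)) : 0 ≤ G u := by
  unfold G
  have h : (0 : ℝ) < lam := by unfold lam; norm_num
  positivity

theorem main : S_FW → S_BET → S_PHI → S_REC → S_ROT → S_ZERO → S_DET → S_STABLE →
    (Irrational phi ∧ 0 < phi ∧ phi < 1) → S_MAIN := by
  intro _ hBET hPHI hREC hROT hZERO hDET hSTABLE hphi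
  obtain ⟨Φ, hΦ1, hΦ2⟩ := hPHI
  obtain ⟨ρ, hρ⟩ := hROT
  have hzero : ∀ μ, IsSt phi μ → ∀ᵐ X ∂μ, Zero X := by
    intro μ hμ
    filter_upwards [hμ.2] with X hX
    exact hZERO X hX
  have hst : Zero (sturm phi) := by
    apply hZERO
    apply subset_closure
    refine ⟨0, ?_⟩
    funext i
    simp [shift]
  have hconf : ∀ X, GSconf Φ X → ∀ N : ℕ, G (wrd X 0 N) ≤ bet N := by
    intro X hX N
    set Y : Cf := fun i => if 0 ≤ i ∧ i < (N : ℤ) then sturm phi i else X i with hY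
    have hloc : Loc Y X := by
      refine (Set.finite_Ico (0 : ℤ) N).subset ?_
      intro i hi
      by_contra h
      apply hi
      exact if_neg h
    have h1 := hΦ2 X Y (sturm phi) hst N (fun i h0 h1 => if_pos ⟨h0, h1⟩) (fun i h => if_neg h)
    have h2 := hX Y hloc
    linarith
  have hG1 : GSmeas Φ ρ := by
    refine ⟨hρ.1, ?_⟩
    filter_upwards [hzero ρ hρ] with X hX
    intro Y hY
    exact (G_nonneg _).trans (hΦ1 X Y hX hY 0 0)
  refine ⟨Φ, ρ, hphi.1, hphi.2.1, hphi.2.2, hρ, ?_, hG1, ?_, ?_⟩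
  · intro μ hμ
    refine hDET μ ρ hμ.1 hρ.1 (fun _ => 0) (by simp) ?_ ?_
    · filter_upwards [hzero μ hμ] with X hX N
      exact (hX 0 N).le
    · filter_upwards [hzero ρ hρ] with X hX N
      exact (hX 0 N).le
  · intro μ hμ
    refine hDET μ ρ hμ.1 hρ.1 bet hBET ?_ ?_
    · filter_upwards [hμ.2] with X hX
      exact hconf X hX
    · filter_upwards [hG1.2] with X hX
      exact hconf X hX
  · intro Φ' hΦ'
    obtain ⟨ε0, hε0, h⟩ := hSTABLE Φ hΦ1 Φ' hΦ'
    refine ⟨ε0, hε0, fun ε h1 h2 Ψ hΨ => ⟨hρ.1, ?_⟩⟩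
    filter_upwards [hzero ρ hρ, hREC ρ hρ.1] with X hX hX'
    exact h ε h1 h2 Ψ hΨ X hX hX'

end Pool.Agent.W465.STS
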